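import Pool.Agent.W544.PG.Defs2

set_option autoImplicit false

open Matrix Finset Module

namespace Pool.Agent.W199.PG

open Pool.Agent.W544.PG

noncomputable section

/-- the defect of the invariance of `t` under `y` -/
def K {n k : ℕ} (y : Matrix (Fin n) (Fin n) ℂ) (t : (Fin k → Fin n) → ℚ) (J : Fin k → Fin n) : ℂ :=
  ∑ j, ∑ l, y l (J j) * (t (Function.update J j l) : ℂ)

/-- the derivation defined by `y` -/
def D {n k : ℕ} (y : Matrix (Fin n) (Fin n) ℂ) (t : (Fin k → Fin n) → ℚ)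
    (v : Fin k → Fin n → ℂ) : ℂ := ∑ j, ev t (Function.update v j (y *ᵥ v j))

theorem ev_update {n k : ℕ} (t : (Fin k → Fin n) → ℚ) (v : Fin k → Fin n → ℂ) (j : Fin k)
    (w : Fin n → ℂ) : ev t (Function.update v j w) =
      ∑ I : Fin k → Fin n, (t I : ℂ) * (w (I j) * ∏ i ∈ univ.erase j, v i (I i)) := by
  unfold ev
  refine Finset.sum_congr rfl fun I _ => ?_
  congr 1
  rw [← Finset.mul_prod_erase _ _ (Finset.mem_univ j), Function.update_self]
  congr 1
  refine Finset.prod_congr rfl fun i hi => ?_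
  rw [Function.update_of_ne (Finset.ne_of_mem_erase hi)]

/-- the involution exchanging the `j`-th entry with the extra one -/
def sw {n k : ℕ} (j : Fin k) : ((Fin k → Fin n) × Fin n) ≃ ((Fin k → Fin n) × Fin n) where
  toFun p := (Function.update p.1 j p.2, p.1 j)
  invFun p := (Function.update p.1 j p.2, p.1 j)
  left_inv p := by simp
  right_inv p := by simp

theorem D_form {n k : ℕ} (y : Matrix (Fin n) (Fin n) ℂ) (t : (Fin k → Fin n) → ℚ)
    (v : Fin k → Fin n → ℂ) : D y t v = ∑ J : Fin k → Fin n, (∏ i, v i (J i)) * K y t J := by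
  unfold D K
  have h : ∀ j : Fin k, ev t (Function.update v j (y *ᵥ v j)) =
      ∑ J : Fin k → Fin n, (∏ i, v i (J i)) * ∑ l, y l (J j) * (t (Function.update J j l) : ℂ) := by
    intro j
    rw [ev_update]
    have h1 : ∀ I : Fin k → Fin n, (t I : ℂ) * ((y *ᵥ v j) (I j) * ∏ i ∈ univ.erase j, v i (I i)) =
        ∑ m, (t I : ℂ) * (y (I j) m * v j m) * ∏ i ∈ univ.erase j, v i (I i) := by
      intro I
      rw [Matrix.mulVec, dotProduct, Finset.sum_mul, Finset.mul_sum]
      refine Finset.sum_congr rfl fun m _ => ?_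
      ring
    rw [Finset.sum_congr rfl fun I _ => h1 I, ← Fintype.sum_prod_type']
    rw [← Equiv.sum_comp (sw j)]
    rw [Fintype.sum_prod_type]
    refine Finset.sum_congr rfl fun J _ => ?_
    rw [Finset.mul_sum]
    refine Finset.sum_congr rfl fun l _ => ?_
    have h2 : ∏ i ∈ univ.erase j, v i ((Function.update J j l) i) =
        ∏ i ∈ univ.erase j, v i (J i) := by
      refine Finset.prod_congr rfl fun i hi => ?_
      rw [Function.update_of_ne (Finset.ne_of_mem_erase hi)]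
    simp only [sw, Equiv.coe_fn_mk, Function.update_self]
    rw [h2, ← Finset.mul_prod_erase _ _ (Finset.mem_univ j)]
    ring
  rw [Finset.sum_congr rfl fun j _ => h j, Finset.sum_comm]
  refine Finset.sum_congr rfl fun J _ => ?_
  rw [Finset.mul_sum]

theorem kil_iff {n k : ℕ} (y : Matrix (Fin n) (Fin n) ℂ) (t : (Fin k → Fin n) → ℚ) :
    Kil y t ↔ ∀ v, D y t v = 0 := by
  constructor
  · intro h v
    rw [D_form]
    refine Finset.sum_eq_zero fun J _ => ?_
    rw [show K y t J = 0 from h J, mul_zero]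
  · intro h J
    have h1 := h (fun i => Pi.single (J i) 1)
    rw [D_form, Finset.sum_eq_single J] at h1
    · have h2 : K y t J = 0 := by simpa using h1
      exact h2
    · intro J' _ hne
      obtain ⟨i, hi⟩ := Function.ne_iff.1 hne
      rw [Finset.prod_eq_zero (Finset.mem_univ i), zero_mul]
      rw [Pi.single_eq_of_ne hi]
    · intro h; exact absurd (Finset.mem_univ _) h

theorem kil_conj {n k : ℕ} {y : Matrix (Fin n) (Fin n) ℂ} {t : (Fin k → Fin n) → ℚ}
    (h : Kil y t) : Kil (y.map (starRingEnd ℂ)) t := by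
  intro J
  have h1 := congrArg (starRingEnd ℂ) (h J)
  rw [map_zero, map_sum] at h1
  rw [← h1]
  refine Finset.sum_congr rfl fun j _ => ?_
  rw [map_sum]
  refine Finset.sum_congr rfl fun l _ => ?_
  rw [map_mul, map_ratCast, Matrix.map_apply]

theorem ev_sum {n k : ℕ} (t : (Fin k → Fin n) → ℚ) (w : Fin k → Fin 3 → Fin n → ℂ) :
    ev t (fun j => ∑ c, w j c) = ∑ f : Fin k → Fin 3, ev t (fun j => w j (f j)) := by
  unfold ev
  rw [Finset.sum_comm]
  refine Finset.sum_congr rfl fun I _ => ?_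
  rw [← Finset.mul_sum]
  congr 1
  have := Finset.prod_univ_sum (fun _ : Fin k => (univ : Finset (Fin 3)))
    (fun j c => w j c (I j))
  rw [Fintype.piFinset_univ] at this
  rw [← this]
  refine Finset.prod_congr rfl fun j _ => ?_
  exact Finset.sum_apply _ _ _

theorem ev_smul {n k : ℕ} (t : (Fin k → Fin n) → ℚ) (a : Fin k → ℂ) (w : Fin k → Fin n → ℂ) :
    ev t (fun j => a j • w j) = (∏ j, a j) * ev t w := by
  unfold ev
  rw [Finset.mul_sum]
  refine Finset.sum_congr rfl fun I _ => ?_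
  simp only [Pi.smul_apply, smul_eq_mul, Finset.prod_mul_distrib]
  ring

/-- the three eigenvalues -/
def ei : Fin 3 → ℤ := ![1, 0, -1]

/-- the projections to the eigenspaces -/
def pr {n : ℕ} (x : Matrix (Fin n) (Fin n) ℂ) : Fin 3 → Matrix (Fin n) (Fin n) ℂ :=
  ![(1 / 2 : ℂ) • (x * x + x), 1 - x * x, (1 / 2 : ℂ) • (x * x - x)]

theorem pr_sum {n : ℕ} (x : Matrix (Fin n) (Fin n) ℂ) : ∑ c, pr x c = 1 := by
  rw [Fin.sum_univ_three]
  simp only [pr, Matrix.cons_val_zero, Matrix.cons_val_one, Matrix.cons_val]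
  have : (1 / 2 : ℂ) • (x * x + x) + (1 - x * x) + (1 / 2 : ℂ) • (x * x - x) =
      1 + ((1 / 2 : ℂ) • (x * x) + (1 / 2 : ℂ) • (x * x) - x * x) := by
    rw [smul_add, smul_sub]; abel
  rw [this, ← add_smul]
  norm_num

theorem x_pr {n : ℕ} (x : Matrix (Fin n) (Fin n) ℂ) (hx : x * x * x = x) (c : Fin 3) :
    x * pr x c = (ei c : ℂ) • pr x c := by
  have h3 : x * (x * x) = x := by rw [← mul_assoc]; exact hx
  fin_cases c
  · simp only [pr, ei, Fin.zero_eta, Matrix.cons_val_zero, Int.cast_one, one_smul, mul_smul_comm,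
      mul_add, h3]
    rw [add_comm]
  · simp only [pr, ei, Fin.mk_one, Matrix.cons_val_one, Matrix.cons_val_zero, Int.cast_zero,
      zero_smul, mul_sub, mul_one, h3, sub_self]
  · simp only [pr, ei, Fin.reduceFinMk, Matrix.cons_val, Int.cast_neg, Int.cast_one,
      mul_smul_comm, mul_sub, h3, neg_smul, one_smul]
    rw [← smul_neg, neg_sub]

theorem G_pr {n : ℕ} (x : Matrix (Fin n) (Fin n) ℂ) (hx : x * x * x = x) (c : Fin 3) :
    (1 - (2 : ℂ) • (x * x)) * pr x c = ((-1 : ℂ) ^ (ei c).natAbs) • pr x c := by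
  have h1 := x_pr x hx c
  have h2 : x * x * pr x c = ((ei c : ℂ) * (ei c : ℂ)) • pr x c := by
    rw [mul_assoc, h1, mul_smul_comm, h1, smul_smul]
  rw [sub_mul, one_mul, smul_mul_assoc, h2, smul_smul]
  nth_rewrite 1 [← one_smul ℂ (pr x c)]
  rw [← sub_smul]
  congr 1
  fin_cases c <;> simp [ei] <;> norm_num

theorem ev_G {n k : ℕ} (T : HS n) (t : (Fin k → Fin n) → ℚ) (ht : T.IsHodge t)
    (v : Fin k → Fin n → ℂ) :
    ev t (fun j => (1 - (2 : ℂ) • (T.x * T.x)) *ᵥ v j) = ev t v := by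
  have hv : ∀ j, v j = ∑ c, pr T.x c *ᵥ v j := by
    intro j
    rw [← Matrix.sum_mulVec, pr_sum, Matrix.one_mulVec]
  have hG : ∀ j, (1 - (2 : ℂ) • (T.x * T.x)) *ᵥ v j =
      ∑ c, ((-1 : ℂ) ^ (ei c).natAbs) • (pr T.x c *ᵥ v j) := by
    intro j
    conv_lhs => rw [hv j]
    rw [Matrix.mulVec_sum]
    refine Finset.sum_congr rfl fun c _ => ?_
    rw [Matrix.mulVec_mulVec, G_pr T.x T.cube, Matrix.smul_mulVec]
  have e1 : ev t v = ∑ f : Fin k → Fin 3, ev t (fun j => pr T.x (f j) *ᵥ v j) := by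
    rw [← ev_sum t (fun j c => pr T.x c *ᵥ v j)]
    congr 1
    funext j
    exact hv j
  have e2 : ev t (fun j => (1 - (2 : ℂ) • (T.x * T.x)) *ᵥ v j) =
      ∑ f : Fin k → Fin 3, ev t (fun j => ((-1 : ℂ) ^ (ei (f j)).natAbs) •
        (pr T.x (f j) *ᵥ v j)) := by
    rw [← ev_sum t (fun j c => ((-1 : ℂ) ^ (ei c).natAbs) • (pr T.x c *ᵥ v j))]
    congr 1
    funext j
    exact hG j
  rw [e1, e2]
  refine Finset.sum_congr rfl fun f _ => ?_
  rw [ev_smul t (fun j => (-1 : ℂ) ^ (ei (f j)).natAbs)]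
  by_cases hs : ∑ j, ei (f j) = 0
  · have : (∏ j, (-1 : ℂ) ^ (ei (f j)).natAbs) = 1 := by
      have h1 : (∏ j, (-1 : ℤ) ^ (ei (f j)).natAbs) = 1 := by
        have h2 : ∀ j, (-1 : ℤ) ^ (ei (f j)).natAbs = ((Int.negOnePow (ei (f j)) : ℤˣ) : ℤ) := by
          intro j
          rcases hc : f j with ⟨c, hc2⟩
          interval_cases c <;> simp [ei, Int.negOnePow]
        rw [Finset.prod_congr rfl fun j _ => h2 j]
        have h3 : ∀ s : Finset (Fin k), (∏ j ∈ s, ((Int.negOnePow (ei (f j)) : ℤˣ) : ℤ)) =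
            ((Int.negOnePow (∑ j ∈ s, ei (f j)) : ℤˣ) : ℤ) := by
          intro s
          induction s using Finset.induction_on with
          | empty => simp
          | insert a s ha ih =>
            rw [Finset.prod_insert ha, Finset.sum_insert ha, Int.negOnePow_add, ih]
            push_cast
            rfl
        rw [h3, hs]
        simp
      have h4 := congrArg (fun z : ℤ => (z : ℂ)) h1
      push_cast at h4
      exact h4
    rw [this, one_mul]
  · have : ev t (fun j => pr T.x (f j) *ᵥ v j) = 0 := by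
      refine ht _ (fun j => ei (f j)) (fun j => ?_) hs
      rw [Matrix.mulVec_mulVec, x_pr T.x T.cube, Matrix.smul_mulVec]
    rw [this, mul_zero]

theorem kil_G {n k : ℕ} (T : HS n) (t : (Fin k → Fin n) → ℚ) (ht : T.IsHodge t)
    {z : Matrix (Fin n) (Fin n) ℂ} (hz : Kil z t) (G : Matrix (Fin n) (Fin n) ℂ)
    (hG : G = 1 - (2 : ℂ) • (T.x * T.x)) (hGG : G * G = 1) : Kil (G * z * G) t := by
  rw [kil_iff] at hz ⊢
  intro v
  have h1 : ∀ w, ev t (fun j => G *ᵥ w j) = ev t w := by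
    intro w; rw [hG]; exact ev_G T t ht w
  rw [← hz (fun j => G *ᵥ v j)]
  unfold D
  refine Finset.sum_congr rfl fun j _ => ?_
  rw [← h1 (Function.update (fun j => G *ᵥ v j) j (z *ᵥ (G *ᵥ v j)))]
  congr 1
  funext i
  by_cases hi : i = j
  · subst hi
    rw [Function.update_self, Function.update_self, Matrix.mulVec_mulVec, Matrix.mulVec_mulVec,
      mul_assoc]
  · rw [Function.update_of_ne hi, Function.update_of_ne hi, Matrix.mulVec_mulVec, hGG,
      Matrix.one_mulVec]

theorem kil_neg {n k : ℕ} {y : Matrix (Fin n) (Fin n) ℂ} {t : (Fin k → Fin n) → ℚ}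
    (h : Kil y t) : Kil (-y) t := by
  intro J
  have := h J
  simp only [Matrix.neg_apply, neg_mul, Finset.sum_neg_distrib, this, neg_zero]

theorem star' : S_star := by
  intro n T y hy
  obtain ⟨hy1, hy2⟩ := hy
  set x := T.x with hx
  have h3 : x * (x * x) = x := by rw [← mul_assoc]; exact T.cube
  have h4 : x * x * (x * x) = x * x := by rw [mul_assoc, h3]
  set C : Matrix (Fin n) (Fin n) ℂ := (2 : ℂ) • (x * x) - 1 with hC
  have hCC : C * C = 1 := by
    rw [hC, sub_mul, mul_sub, mul_sub, smul_mul_smul_comm, h4, one_mul, mul_one, mul_one]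
    have : ((2 : ℂ) * 2) • (x * x) - (2 : ℂ) • (x * x) - ((2 : ℂ) • (x * x) - 1) =
        (((2 : ℂ) * 2) • (x * x) - (2 : ℂ) • (x * x) - (2 : ℂ) • (x * x)) + 1 := by abel
    rw [this, ← sub_smul, ← sub_smul]
    norm_num
  have hxx : (x * x)ᵀ * mC T.Q = mC T.Q * (x * x) := by
    have h5 : xᵀ * mC T.Q = -(mC T.Q * x) := eq_neg_of_add_eq_zero_left T.skew
    rw [transpose_mul, mul_assoc, h5, mul_neg, ← mul_assoc, h5, neg_mul, neg_neg, mul_assoc]
  have hCQ : Cᵀ * mC T.Q = mC T.Q * C := by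
    rw [hC, transpose_sub, transpose_smul, transpose_one, sub_mul, one_mul, smul_mul_assoc, hxx,
      mul_sub, mul_one, mul_smul_comm]
  refine ⟨?_, ?_⟩
  · have hQc : (mC T.Q).map (starRingEnd ℂ) = mC T.Q := by
      ext i j
      simp [mC]
    have hyc : (y.map (starRingEnd ℂ))ᵀ * mC T.Q + mC T.Q * y.map (starRingEnd ℂ) = 0 := by
      have := congrArg (fun M : Matrix (Fin n) (Fin n) ℂ => M.map (starRingEnd ℂ)) hy1
      rw [Matrix.map_add _ (fun a b => map_add _ a b), Matrix.map_mul, Matrix.map_mul, hQc,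
        Matrix.transpose_map, Matrix.map_zero _ (map_zero _)] at this
      exact this
    rw [transpose_neg, transpose_mul, transpose_mul, neg_mul, mul_neg, ← neg_add, neg_eq_zero]
    calc Cᵀ * ((y.map (starRingEnd ℂ))ᵀ * Cᵀ) * mC T.Q + mC T.Q * (C * y.map (starRingEnd ℂ) * C)
        = Cᵀ * (y.map (starRingEnd ℂ))ᵀ * (Cᵀ * mC T.Q) +
          (mC T.Q * C) * y.map (starRingEnd ℂ) * C := by
          simp only [mul_assoc]
      _ = Cᵀ * ((y.map (starRingEnd ℂ))ᵀ * mC T.Q + mC T.Q * y.map (starRingEnd ℂ)) * C := by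
          rw [hCQ, ← hCQ, hCQ]
          rw [mul_add, add_mul]
          have e1 : Cᵀ * (y.map (starRingEnd ℂ))ᵀ * (mC T.Q * C) =
              Cᵀ * ((y.map (starRingEnd ℂ))ᵀ * mC T.Q) * C := by simp only [mul_assoc]
          have e2 : mC T.Q * C * y.map (starRingEnd ℂ) * C =
              Cᵀ * (mC T.Q * y.map (starRingEnd ℂ)) * C := by
            rw [← hCQ]; simp only [mul_assoc]
          rw [e1, e2]
      _ = 0 := by rw [hyc, mul_zero, zero_mul]
  · intro k t ht
    have h5 := kil_conj (hy2 k t ht)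
    have h6 := kil_G T t ht h5 (-C) (by rw [hC, neg_sub]) (by rw [neg_mul_neg, hCC])
    have h7 : -C * y.map (starRingEnd ℂ) * -C = C * y.map (starRingEnd ℂ) * C := by
      rw [neg_mul, neg_mul_neg]
    rw [h7] at h6
    exact kil_neg h6

theorem star : S_hk → S_star := fun _ => star'

end

end Pool.Agent.W199.PG
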